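import Pool.Agent.H.MP_100021_an.Defs
import Pool.Agent.Lib.helper23.BLI

namespace Pool.Agent.H.MP_100021_an

open Pool.Agent.Lib.helper23.BL Filter Set

variable {X : Type} [BanachLattice X]

theorem free_ext {ι A : Type} [BanachLattice A] {δ : ι → A} (h : IsUniv ∅ δ) {Y : Type}
    [BanachLattice Y] (y : ι → Y) {M : ℝ} (h0 : 0 ≤ M) (hM : ∀ i, ‖y i‖ ≤ M) :
    ∃ T : A →L[ℝ] Y, IsHom T ∧ (∀ u, ‖T u‖ ≤ M * ‖u‖) ∧ ∀ i, T (δ i) = y i := by
  obtain ⟨T, t1, t2, t3⟩ := h.ext Y y M h0 hM (by simp)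
  exact ⟨T, t1, fun u => (T.le_opNorm u).trans (mul_le_mul_of_nonneg_right t2 (norm_nonneg _)), t3⟩

theorem exists_struct (hX : Projective X) : ∃ (ι A : Type) (_ : BanachLattice A) (δ : ι → A)
    (Q : A →L[ℝ] X) (S : X →L[ℝ] A), IsUniv ∅ δ ∧ IsHom Q ∧ IsHom S ∧ ∀ x, Q (S x) = x := by
  obtain ⟨A, _, δ, h⟩ := exists_univ (ι := {x : X // ‖x‖ ≤ 1}) ∅ (by simp)
  obtain ⟨Q, q1, q2, q3⟩ := h.ext X (fun i => i.1) 1 zero_le_one (fun i => i.2) (by simp)
  have hJ : ∀ u ∈ q1.ker.sub, Q u = 0 := fun u hu => hu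
  have hb : ∀ x : X, ‖‖x‖⁻¹ • x‖ ≤ 1 := fun x => by
    rw [norm_smul, norm_inv, norm_norm]; exact inv_mul_le_one
  have he : ∀ x : X, Q (‖x‖ • δ ⟨_, hb x⟩) = x := fun x => by
    rw [map_smul, q3]
    by_cases h0 : x = 0
    · simp [h0]
    · rw [smul_smul, mul_inv_cancel₀ (norm_ne_zero_iff.2 h0), one_smul]
  obtain ⟨T, t1, -, t3⟩ := exists_inv (Quo.lift q1.ker Q hJ) (Quo.lift_hom _ hJ q1) (fun y => by
    refine le_antisymm (((Quo.lift q1.ker Q hJ).le_opNorm y).trans (mul_le_of_le_one_left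
      (norm_nonneg _) ((Quo.norm_lift _ _ _).trans q2))) ?_
    obtain ⟨u, rfl⟩ := Quo.mk_surj _ y
    rw [Quo.lift_mk]
    have : Quo.mk q1.ker u = Quo.mk q1.ker (‖Q u‖ • δ ⟨_, hb (Q u)⟩) := by
      rw [Quo.mk_eq]
      show Q _ = 0
      rw [map_sub, he, sub_self]
    rw [this]
    refine (norm_mk_le _ _).trans ?_
    rw [norm_smul, norm_norm]
    exact mul_le_of_le_one_right (norm_nonneg _) (h.gen _))
    (Function.Surjective.denseRange fun x => ⟨Quo.mk _ _, (Quo.lift_mk _ _ _ _).trans (he x)⟩)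
  obtain ⟨S, s1, s2, -⟩ := hX A q1.ker T t1 1 one_pos
  exact ⟨_, A, inferInstance, δ, Q, S, h, q1, s1, fun x => by
    rw [← Quo.lift_mk q1.ker Q hJ, s2, t3]⟩

theorem near {ι A : Type} [BanachLattice A] {δ : ι → A} (h : IsUniv ∅ δ) (u : A) {ε : ℝ}
    (hε : 0 < ε) : ∃ t : Tm ι, ‖u - t.eval δ‖ < ε := by
  obtain ⟨t, ht⟩ := Metric.denseRange_iff.1 h.dense u ε hε
  exact ⟨t, by rwa [← dist_eq_norm]⟩

theorem free_sep {ι A : Type} [BanachLattice A] {δ : ι → A} (h : IsUniv ∅ δ) (u : A)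
    (hu : ∀ φ : A →L[ℝ] ℝ, IsHom φ → φ u = 0) : u = 0 := by
  classical
  have key : ∀ (F : Finset ι) (R : A →L[ℝ] A), IsHom R →
      (∀ i, R (δ i) = if i ∈ F then δ i else 0) → R u = 0 := by
    intro F R r1 r3
    refine norm_le_zero_iff.1 (le_of_forall_pos_le_add fun ε hε => ?_)
    have hp : 0 < ‖R‖ + F.card + 1 := by positivity
    obtain ⟨s, hs⟩ := near h u (div_pos hε hp)
    set η := ε / (‖R‖ + F.card + 1) with hη
    have η0 : 0 < η := div_pos hε hp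
    have k := yudin δ (s.bind fun i => if i ∈ F then .var i else .zero).abs
      (.smul η (Tm.sum (F.toList.map fun i => (Tm.var i).abs))) fun z => by
        obtain ⟨φ, p1, p2, p3⟩ := free_ext h (fun i => if i ∈ F then z i else 0)
          (M := ∑ i ∈ F, |z i|) (by positivity) fun i => by
            split_ifs with hi
            · exact Finset.single_le_sum (f := fun i => |z i|) (fun _ _ => abs_nonneg _) hi
            · simp only [norm_zero]; positivity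
        have a1 := p2 (u - s.eval δ)
        rw [map_sub, hu φ p1, zero_sub, norm_neg, p1.eval] at a1
        simp only [p3] at a1
        simp only [Tm.eval_abs, Tm.eval_bind, Tm.eval_smul, Tm.eval_sum, List.map_map,
          apply_ite (Tm.eval z), Tm.eval_var, Tm.eval_zero, smul_eq_mul]
        have e : (List.map (Tm.eval z ∘ fun i => (Tm.var i).abs) F.toList).sum =
            ∑ i ∈ F, |z i| := by
          rw [← Finset.sum_map_toList]; congr 1
          exact List.map_congr_left fun i _ => by simp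
        rw [e, mul_comm]
        exact a1.trans (mul_le_mul_of_nonneg_left hs.le (by positivity))
    simp only [Tm.eval_abs, Tm.eval_bind, Tm.eval_smul, Tm.eval_sum, List.map_map,
      apply_ite (Tm.eval δ), Tm.eval_var, Tm.eval_zero] at k
    have e : (List.map (Tm.eval δ ∘ fun i => (Tm.var i).abs) F.toList).sum =
        ∑ i ∈ F, |δ i| := by
      rw [← Finset.sum_map_toList]; congr 1
      exact List.map_congr_left fun i _ => by simp
    have e2 : R (s.eval δ) = s.eval fun i => if i ∈ F then δ i else 0 := by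
      rw [r1.eval]; simp only [r3]
    rw [e, ← e2] at k
    have a1 : ‖R (s.eval δ)‖ ≤ η * F.card := by
      refine (HasSolidNorm.solid (k.trans (le_abs_self _))).trans ?_
      rw [norm_smul, Real.norm_of_nonneg η0.le]
      refine mul_le_mul_of_nonneg_left ((norm_sum_le _ _).trans ?_) η0.le
      simpa using Finset.sum_le_card_nsmul F (fun i => ‖|δ i|‖) 1 fun i _ => by
        rw [norm_abs_eq_norm]; exact h.gen i
    have a2 : ‖R (u - s.eval δ)‖ ≤ ‖R‖ * η :=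
      (R.le_opNorm _).trans (mul_le_mul_of_nonneg_left hs.le (norm_nonneg _))
    have a3 : R u = R (u - s.eval δ) + R (s.eval δ) := by rw [← map_add, sub_add_cancel]
    have a4 : η * (‖R‖ + F.card + 1) = ε := div_mul_cancel₀ _ hp.ne'
    rw [a3]
    refine (norm_add_le _ _).trans ?_
    nlinarith
  refine norm_le_zero_iff.1 (le_of_forall_pos_le_add fun ε hε => ?_)
  obtain ⟨t, ht⟩ := near h u (half_pos hε)
  obtain ⟨R, r1, r2, r3⟩ := free_ext h (fun i => if i ∈ t.vars_finite.toFinset then δ i else 0)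
    zero_le_one fun i => by
      split_ifs
      · exact h.gen i
      · simp
  have e : R (t.eval δ) = t.eval δ := by
    rw [r1.eval]
    exact Tm.eval_congr fun i hi => by rw [r3, if_pos (by simpa using hi)]
  have a1 := r2 (u - t.eval δ)
  rw [map_sub, key _ R r1 r3, e, zero_sub, norm_neg] at a1
  have a2 := norm_add_le (u - t.eval δ) (t.eval δ)
  rw [sub_add_cancel] at a2
  linarith

/-- the positive part of a functional -/
noncomputable def pp (f : X →L[ℝ] ℝ) (x : X) : ℝ := sSup (f '' Icc 0 x)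

theorem pp_bdd (f : X →L[ℝ] ℝ) (x : X) : BddAbove (f '' Icc 0 x) := by
  refine ⟨‖f‖ * ‖x‖, ?_⟩
  rintro _ ⟨v, hv, rfl⟩
  refine (le_abs_self _).trans ((f.le_opNorm v).trans (mul_le_mul_of_nonneg_left
    (HasSolidNorm.solid (abs_le_abs_of_nonneg hv.1 hv.2)) (norm_nonneg _)))

theorem le_pp (f : X →L[ℝ] ℝ) {x v : X} (h0 : 0 ≤ v) (h : v ≤ x) : f v ≤ pp f x :=
  le_csSup (pp_bdd f x) ⟨v, ⟨h0, h⟩, rfl⟩

theorem pp_le (f : X →L[ℝ] ℝ) {x : X} (h0 : 0 ≤ x) {c : ℝ} (h : ∀ v, 0 ≤ v → v ≤ x → f v ≤ c) :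
    pp f x ≤ c := csSup_le ⟨_, 0, ⟨le_rfl, h0⟩, rfl⟩ (by
  rintro _ ⟨v, hv, rfl⟩; exact h v hv.1 hv.2)

theorem pp_add (f : X →L[ℝ] ℝ) {x a b : X} (h0 : 0 ≤ x) (ha : 0 ≤ a) (hb : 0 ≤ b)
    (h : x ≤ a + b) : pp f x ≤ pp f a + pp f b := pp_le f h0 fun v v0 v1 => by
  have e : v = v ⊓ a + (v - v ⊓ a) := by abel
  rw [e, map_add]
  refine add_le_add (le_pp f (le_inf v0 ha) inf_le_right)
    (le_pp f (sub_nonneg.2 inf_le_left) ?_)
  rw [sub_inf]
  exact sup_le (by simpa using hb) (sub_le_iff_le_add'.2 (v1.trans h))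

theorem pp_oc {f : X →L[ℝ] ℝ} (hf : OrderCont f) {D : Set X} (hn : D.Nonempty)
    (hd : ∀ a ∈ D, ∀ b ∈ D, a ⊓ b ∈ D) (h0 : IsGLB D 0) {ε : ℝ} (hε : 0 < ε) :
    ∃ d ∈ D, pp f d < ε := by
  obtain ⟨d0, hd0⟩ := hn
  have p0 : ∀ d ∈ D, 0 ≤ d := fun d h => h0.1 h
  obtain ⟨_, ⟨y, hy, rfl⟩, h1⟩ := exists_lt_of_lt_csSup
    (show (f '' Icc 0 d0).Nonempty from ⟨_, 0, ⟨le_rfl, p0 d0 hd0⟩, rfl⟩) (show pp f d0 - ε / 4 < sSup (f '' Icc 0 d0) by unfold pp; linarith)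
  have : Nonempty (D : Type)ᵒᵈ := ⟨⟨d0, hd0⟩⟩
  have : IsDirectedOrder (D : Type)ᵒᵈ := ⟨fun a b => ⟨⟨a.1 ⊓ b.1, hd _ a.2 _ b.2⟩,
    show a.1 ⊓ b.1 ≤ a.1 from inf_le_left, show a.1 ⊓ b.1 ≤ b.1 from inf_le_right⟩⟩
  have h2 := hf (D : Type)ᵒᵈ (fun d => y ⊓ d.1) (fun a b hab => inf_le_inf_left y hab) ⟨by
      rintro _ ⟨d, rfl⟩
      exact le_inf hy.1 (p0 _ d.2), fun w hw => h0.2 fun d hd' =>
        (hw ⟨⟨d, hd'⟩, rfl⟩).trans inf_le_right⟩
  have h6 : (0 : ℝ) < ε / 4 := by linarith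
  obtain ⟨d, h3, h4⟩ := ((h2.eventually (gt_mem_nhds h6)).and
    (eventually_ge_atTop (α := (D : Type)ᵒᵈ) ⟨d0, hd0⟩)).exists
  have h5 : d.1 ≤ d0 := h4
  refine ⟨d.1, d.2, lt_of_le_of_lt (pp_le f (p0 _ d.2) (c := ε / 2) fun v v0 v1 => ?_)
    (by linarith)⟩
  have := le_pp f (x := d0) (v := y - y ⊓ d.1 + v) (add_nonneg (sub_nonneg.2 inf_le_left) v0) (by
    refine (add_le_add_right v1 _).trans ?_
    rw [sub_inf, sup_add]
    exact sup_le (by simpa using h5) (by simpa using hy.2))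
  rw [map_add, map_sub] at this
  linarith

theorem atom_lemma (hs : ∀ x : X, (∀ φ : X →L[ℝ] ℝ, IsHom φ → φ x = 0) → x = 0)
    {f : X →L[ℝ] ℝ} (hf : OrderCont f) (ha : ∀ a, Atom a → f a = 0) {x : X} (hx : 0 ≤ x)
    {φ : X →L[ℝ] ℝ} (hφ : IsHom φ) {ε : ℝ} (hε : 0 < ε) :
    ∃ y, 0 ≤ y ∧ y ≤ x ∧ φ y = 0 ∧ pp f (x - y) < ε := by
  suffices H : ∃ d ∈ {z | 0 ≤ z ∧ z ≤ x ∧ φ z = φ x}, pp f d < ε by
    obtain ⟨d, ⟨d1, d2, d3⟩, d4⟩ := H
    exact ⟨x - d, sub_nonneg.2 d2, sub_le_self _ d1, by rw [map_sub, d3, sub_self],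
      by rwa [sub_sub_cancel]⟩
  by_cases h0 : IsGLB {z | 0 ≤ z ∧ z ≤ x ∧ φ z = φ x} 0
  · refine pp_oc hf (D := {z | 0 ≤ z ∧ z ≤ x ∧ φ z = φ x}) ⟨x, hx, le_rfl, rfl⟩
      (fun a a1 b b1 => ⟨le_inf a1.1 b1.1,
      inf_le_left.trans a1.2.1, by rw [hφ.map_inf, a1.2.2, b1.2.2, inf_idem]⟩) h0 hε
  obtain ⟨w', w1, w2⟩ : ∃ w', w' ∈ lowerBounds {z | 0 ≤ z ∧ z ≤ x ∧ φ z = φ x} ∧ ¬ w' ≤ 0 := by
    by_contra hc
    push Not at hc
    exact h0 ⟨fun z hz => hz.1, hc⟩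
  set w := w' ⊔ 0 with hw
  have w0 : 0 ≤ w := le_sup_right
  have w3 : ∀ z, 0 ≤ z → z ≤ x → φ z = φ x → w ≤ z := fun z z1 z2 z3 =>
    sup_le (w1 ⟨z1, z2, z3⟩) z1
  have w4 : w ≠ 0 := fun h => w2 (le_sup_left.trans h.le)
  have key : ∀ (v : X) (c : ℝ), |v| ≤ c • w → φ v = 0 → v = 0 := by
    intro v c v1 v2
    refine hs v fun ψ hψ => ?_
    by_contra hc
    have b1 : 0 < |ψ v| := abs_pos.2 hc
    have b2 : |ψ v| ≤ c * ψ w := by
      have := hψ.mono v1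
      rwa [hψ, map_smul] at this
    have n0 : 0 ≤ ψ x / |ψ v| := div_nonneg (hψ.nonneg hx) b1.le
    have b3 := hψ.mono (w3 (x - ((ψ x / |ψ v|) • |v|) ⊓ x) (sub_nonneg.2 inf_le_right)
      (sub_le_self _ (le_inf (smul_nonneg n0 (abs_nonneg _)) hx)) (by
        rw [map_sub, hφ.map_inf, map_smul, hφ, v2, abs_zero, smul_zero,
          inf_eq_left.2 (hφ.nonneg hx), sub_zero]))
    rw [map_sub, hψ.map_inf, map_smul, hψ, smul_eq_mul, div_mul_cancel₀ _ b1.ne', inf_idem,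
      sub_self] at b3
    rw [le_antisymm b3 (hψ.nonneg w0), mul_zero] at b2
    linarith
  have w5 : 0 < φ w := lt_of_le_of_ne (hφ.nonneg w0) fun h =>
    w4 (key w 1 (by rw [abs_of_nonneg w0, one_smul]) h.symm)
  have w6 : ∀ (v : X) (c : ℝ), 0 ≤ v → v ≤ c • w → v = (φ v / φ w) • w := by
    intro v c v0 v1
    have n0 : 0 ≤ φ v / φ w := div_nonneg (hφ.nonneg v0) w5.le
    refine sub_eq_zero.1 (key _ (c + φ v / φ w) ?_ ?_)
    · rw [add_smul]
      rw [sub_eq_add_neg]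
      refine (abs_add_le _ _).trans ?_
      rw [abs_neg, abs_of_nonneg v0, abs_of_nonneg (smul_nonneg n0 w0)]
      exact add_le_add_left v1 _
    · rw [map_sub, map_smul, smul_eq_mul, div_mul_cancel₀ _ w5.ne', sub_self]
  have w7 : f w = 0 := ha w ⟨lt_of_le_of_ne w0 w4.symm, fun v v0 v1 =>
    ⟨_, div_nonneg (hφ.nonneg v0) w5.le, w6 v 1 v0 (by rwa [one_smul])⟩⟩
  have n0 : 0 ≤ φ x / φ w := div_nonneg (hφ.nonneg hx) w5.le
  have c0 : 0 ≤ ((φ x / φ w) • w) ⊓ x := le_inf (smul_nonneg n0 w0) hx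
  refine ⟨((φ x / φ w) • w) ⊓ x, ⟨c0, inf_le_right, by
    rw [hφ.map_inf, map_smul, smul_eq_mul, div_mul_cancel₀ _ w5.ne', inf_idem]⟩,
    lt_of_le_of_lt (pp_le f c0 fun v v0 v1 => ?_) hε⟩
  rw [w6 v _ v0 (v1.trans inf_le_left), map_smul, w7, smul_zero]

theorem cnt {ι : Type} {s : Set ι} (hs : s.Countable) :
    {F : Finset ι | (F : Set ι) ⊆ s}.Countable :=
  Set.Countable.mono (fun F hF => And.intro F.finite_toSet hF)
    ((countable_ofPred_finite_subset hs).preimage Finset.coe_injective)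

theorem closing {ι : Type} (G : Finset ι → Set ι) (hG : ∀ F, (G F).Countable) :
    ∃ B : Set ι, B.Countable ∧ ∀ F : Finset ι, (F : Set ι) ⊆ B → G F ⊆ B := by
  let C : ℕ → Set ι := fun n => n.rec ∅ fun _ s => s ∪ ⋃ F ∈ {F : Finset ι | (F : Set ι) ⊆ s}, G F
  have c1 : ∀ n, (C n).Countable := fun n => by
    induction n with
    | zero => exact countable_empty
    | succ n ih => exact ih.union ((cnt ih).biUnion fun F _ => hG F)
  have c2 : Monotone C := monotone_nat_of_le_succ fun n => subset_union_left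
  refine ⟨⋃ n, C n, countable_iUnion c1, fun F hF => ?_⟩
  obtain ⟨n, hn⟩ : ∃ n, (F : Set ι) ⊆ C n := by
    choose g hg using fun i : F => mem_iUnion.1 (hF i.2)
    obtain ⟨n, hn⟩ := (Finite.bddAbove_range g)
    exact ⟨n, fun i hi => c2 (hn ⟨⟨i, hi⟩, rfl⟩) (hg ⟨i, hi⟩)⟩
  exact fun i hi => mem_iUnion.2 ⟨n + 1, Or.inr (mem_biUnion hn hi)⟩

theorem main (hX : Projective X) {f : X →L[ℝ] ℝ} (hf : OrderCont f)
    (ha : ∀ a, Atom a → f a = 0) {x : X} (hx : 0 ≤ x) : f x ≤ 0 := by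
  classical
  by_contra hc
  push Not at hc
  obtain ⟨ι, A, _, δ, Q, S, h, q1, s1, qs⟩ := exists_struct hX
  have hs : ∀ x : X, (∀ φ : X →L[ℝ] ℝ, IsHom φ → φ x = 0) → x = 0 := by
    intro x hx
    by_contra h0
    refine h0 ?_
    rw [← qs x, free_sep h (S x) fun ψ hψ => hx (ψ.comp S) (hψ.comp s1), map_zero]
  let H := {φ : X →L[ℝ] ℝ // IsHom φ ∧ ‖φ‖ ≤ 1}
  choose Y Y0 Y1 Y2 Y3 using fun (φ : H) (k : ℕ) => atom_lemma hs hf ha hx φ.2.1
    (show 0 < f x / 2 ^ (k + 2) by positivity)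
  choose τ hτ using fun (u : A) (n : ℕ) => near h u (Nat.one_div_pos_of_nat (α := ℝ) (n := n))
  let V : A → Set ι := fun u => ⋃ n, (τ u n).vars
  have V1 : ∀ u, (V u).Countable := fun u => countable_iUnion fun n => (τ u n).vars_finite.countable
  have V2 : ∀ (Z : Type) [BanachLattice Z] (T T' : A →L[ℝ] Z), IsHom T → IsHom T' → ∀ u,
      (∀ i ∈ V u, T (δ i) = T' (δ i)) → T u = T' u := by
    intro Z _ T T' t1 t2 u hu
    have l : Tendsto (fun n => (τ u n).eval δ) atTop (nhds u) := by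
      rw [tendsto_iff_norm_sub_tendsto_zero]
      refine squeeze_zero (fun _ => norm_nonneg _) (fun n => ?_)
        tendsto_one_div_add_atTop_nhds_zero_nat
      rw [norm_sub_rev]; exact (hτ u n).le
    refine tendsto_nhds_unique ((T.continuous.tendsto u).comp l)
      (((T'.continuous.tendsto u).comp l).congr fun n => ?_)
    simp only [Function.comp, t1.eval, t2.eval]
    exact Tm.eval_congr fun i hi => (hu i (mem_iUnion.2 ⟨n, hi⟩)).symm
  have hD : ∀ F : Finset ι, ∃ D : Set H, D.Countable ∧ ∀ φ : H, ∀ η > 0, ∃ ψ ∈ D, ∀ i ∈ F,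
      |ψ.1 (Q (δ i)) - φ.1 (Q (δ i))| ≤ η := by
    intro F
    obtain ⟨t, t1, t2, t3⟩ := (TopologicalSpace.IsSeparable.of_separableSpace
      (range fun (φ : H) (i : F) => φ.1 (Q (δ i)))).exists_countable_dense_subset
    choose g hg using fun z : t => t1 z.2
    have := t2.to_subtype
    refine ⟨range g, countable_range g, fun φ η hη => ?_⟩
    obtain ⟨z, z1, z2⟩ := Metric.mem_closure_iff.1 (t3 ⟨φ, rfl⟩) η hη
    refine ⟨g ⟨z, z1⟩, mem_range_self _, fun i hi => ?_⟩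
    have a1 := (dist_le_pi_dist _ _ ⟨i, hi⟩).trans z2.le
    have a2 := congrFun (hg ⟨z, z1⟩) ⟨i, hi⟩
    simp only at a1 a2
    rwa [a2, abs_sub_comm, ← Real.dist_eq]
  choose D D1 D2 using hD
  obtain ⟨B, B1, B2⟩ := closing (fun F => V (S x) ∪ ⋃ φ ∈ D F, ⋃ k, V (S (Y φ k))) fun F =>
    (V1 _).union ((D1 F).biUnion fun φ _ => countable_iUnion fun k => V1 _)
  have Bx : V (S x) ⊆ B := subset_union_left.trans (B2 ∅ (by simp))
  obtain ⟨e, he⟩ := Set.Countable.exists_eq_range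
    ((cnt B1).biUnion fun F _ => D1 F) (by
      obtain ⟨ψ, hψ, -⟩ := D2 ∅ ⟨0, isHom_zero, by simp⟩ 1 one_pos
      exact ⟨ψ, mem_biUnion (show (∅ : Finset ι) ∈ {F : Finset ι | (F : Set ι) ⊆ B} by simp) hψ⟩)
  have By : ∀ n, V (S (Y (e n) n)) ⊆ B := fun n => by
    obtain ⟨F, hF, h1⟩ := mem_iUnion₂.1 (he ▸ mem_range_self n :
      e n ∈ ⋃ F ∈ {F : Finset ι | (F : Set ι) ⊆ B}, D F)
    exact fun i hi => B2 F hF (Or.inr (mem_biUnion h1 (mem_iUnion.2 ⟨n, hi⟩)))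
  have low : ∀ w, 0 ≤ w → (∀ n, w ≤ Y (e n) n) → w = 0 := by
    intro w w0 hw
    refine hs w fun φ0 hφ0 => ?_
    by_contra hc
    have n0 : 0 < (‖φ0‖ + 1)⁻¹ := by positivity
    let φ : H := ⟨(‖φ0‖ + 1)⁻¹ • φ0, hφ0.smul n0.le, by
      rw [norm_smul, Real.norm_of_nonneg n0.le, inv_mul_le_iff₀ (by positivity)]; linarith⟩
    have p0 : 0 < φ.1 w := mul_pos n0 (lt_of_le_of_ne (hφ0.nonneg w0) (Ne.symm hc))
    clear_value φ
    have p1 : 0 < φ.1 x := p0.trans_le (φ.2.1.mono ((hw 0).trans (Y1 _ _)))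
    obtain ⟨b, hb, b0⟩ : ∃ b ∈ B, φ.1 (Q (δ b)) ≠ 0 := by
      by_contra hn
      push Not at hn
      have := V2 ℝ (φ.1.comp Q) 0 (φ.2.1.comp q1) isHom_zero (S x) fun i hi => hn i (Bx hi)
      rw [ContinuousLinearMap.comp_apply, qs] at this
      exact p1.ne' this
    have nb : ∀ (ψ : H) (u : A), |ψ.1 (Q u)| ≤ ‖Q‖ * ‖u‖ := fun ψ u =>
      (ψ.1.le_opNorm _).trans ((mul_le_of_le_one_left (norm_nonneg _) ψ.2.2).trans (Q.le_opNorm u))
    set M := ‖Q‖ / |φ.1 (Q (δ b))| + 1 with hM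
    have M0 : 0 ≤ ‖Q‖ / |φ.1 (Q (δ b))| := by positivity
    have M1 : ∀ i, |φ.1 (Q (δ i)) / φ.1 (Q (δ b))| ≤ M := fun i => by
      rw [abs_div]
      refine le_trans (div_le_div_of_nonneg_right ((nb φ _).trans
        (mul_le_of_le_one_right (norm_nonneg _) (h.gen i))) (abs_nonneg _)) (by linarith)
    obtain ⟨R, r1, r2, r3⟩ := free_ext h
      (fun i => if i ∈ B then δ i else (φ.1 (Q (δ i)) / φ.1 (Q (δ b))) • δ b) (M := M)
      (by linarith) fun i => by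
        split_ifs
        · linarith [h.gen i]
        · rw [norm_smul]
          exact (mul_le_of_le_one_right (norm_nonneg _) (h.gen b)).trans (M1 i)
    have K0 : 0 < ‖Q‖ * M + ‖Q‖ + 1 := by positivity
    obtain ⟨s, hs'⟩ := near h (S w) (div_pos (half_pos p0) K0)
    obtain ⟨L, L0, hL⟩ := s.lip
    have K1 : 0 < L * M + 1 := by positivity
    obtain ⟨ψ, ψ1, ψ2⟩ := D2 (insert b (s.vars_finite.toFinset.filter (· ∈ B))) φ _
      (div_pos (half_pos p0) K1)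
    obtain ⟨n, rfl⟩ : ψ ∈ range e := he ▸ mem_biUnion (show _ ∈ {F : Finset ι | (F : Set ι) ⊆ B} by
      intro i hi
      simp only [Finset.coe_insert, mem_insert_iff, Finset.coe_filter, mem_ofPred_eq] at hi
      rcases hi with rfl | hi
      · exact hb
      · exact hi.2) ψ1
    set η := φ.1 w / 2 / (‖Q‖ * M + ‖Q‖ + 1) with hη
    set θ := φ.1 w / 2 / (L * M + 1) with hθ
    have η0 : 0 < η := div_pos (half_pos p0) K0
    have θ0 : 0 < θ := div_pos (half_pos p0) K1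
    have η1 : η * (‖Q‖ * M + ‖Q‖ + 1) = φ.1 w / 2 := div_mul_cancel₀ _ K0.ne'
    have θ1 : θ * (L * M + 1) = φ.1 w / 2 := div_mul_cancel₀ _ K1.ne'
    have a1 : (e n).1 (Q (R (S w))) ≤ 0 := by
      have := V2 A R (ContinuousLinearMap.id ℝ A) r1 isHom_id _ fun i hi => by
        rw [r3, if_pos (By n hi)]; rfl
      refine ((e n).2.1.mono (q1.mono (r1.mono (s1.mono (hw n))))).trans ?_
      rw [this, ContinuousLinearMap.id_apply, qs, Y2]
    have a2 := (abs_le.1 (nb (e n) (R (S w - s.eval δ)))).1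
    have a3 := (abs_le.1 (nb φ (S w - s.eval δ))).2
    have a4 := mul_le_mul_of_nonneg_left ((r2 (S w - s.eval δ)).trans
      (mul_le_mul_of_nonneg_left hs'.le (by linarith))) (norm_nonneg Q)
    have a5 := mul_le_mul_of_nonneg_left hs'.le (norm_nonneg Q)
    have a6 := (abs_le.1 (hL (fun i => (e n).1 (Q (R (δ i)))) (fun i => φ.1 (Q (δ i))) (M * θ)
      (by positivity) fun i hi => by
        rw [r3]
        split_ifs with hi'
        · refine (ψ2 i (by simp [hi, hi'])).trans (le_mul_of_one_le_left θ0.le (by linarith))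
        · have e1 : (e n).1 (Q ((φ.1 (Q (δ i)) / φ.1 (Q (δ b))) • δ b)) - φ.1 (Q (δ i)) =
              φ.1 (Q (δ i)) / φ.1 (Q (δ b)) * ((e n).1 (Q (δ b)) - φ.1 (Q (δ b))) := by
            rw [map_smul, map_smul, smul_eq_mul]; field_simp
          rw [e1, abs_mul]
          exact mul_le_mul (M1 i) (ψ2 b (by simp)) (abs_nonneg _) (by linarith))).1
    rw [← (e n).2.1.eval, ← q1.eval, ← r1.eval, ← φ.2.1.eval, ← q1.eval] at a6
    rw [map_sub, map_sub, map_sub, ← map_sub R] at a2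
    rw [map_sub, map_sub, qs] at a3
    nlinarith
  let z : ℕ → X := fun n => n.rec (Y (e 0) 0) fun k u => u ⊓ Y (e (k + 1)) (k + 1)
  have z1 : Antitone z := antitone_nat_of_succ_le fun n => inf_le_left
  have z2 : ∀ n, z n ≤ Y (e n) n := fun n => by
    cases n
    · exact le_rfl
    · exact inf_le_right
  have z3 : ∀ n, 0 ≤ z n := fun n => by
    induction n with
    | zero => exact Y0 _ _
    | succ n ih => exact le_inf ih (Y0 _ _)
  have z4 : ∀ n, z n ≤ x := fun n => (z2 n).trans (Y1 _ _)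
  have z5 : ∀ n, pp f (x - z n) ≤ f x / 2 - f x / 2 ^ (n + 2) := fun n => by
    induction n with
    | zero =>
      have := Y3 (e 0) 0
      show pp f (x - Y (e 0) 0) ≤ _
      norm_num at this ⊢
      linarith
    | succ n ih =>
      have a1 := pp_add f (sub_nonneg.2 (z4 (n + 1))) (sub_nonneg.2 (z4 n))
        (sub_nonneg.2 (Y1 (e (n + 1)) (n + 1))) (by
          show x - z n ⊓ Y (e (n + 1)) (n + 1) ≤ _
          rw [sub_inf]
          exact sup_le (le_add_of_nonneg_right (sub_nonneg.2 (Y1 _ _)))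
            (le_add_of_nonneg_left (sub_nonneg.2 (z4 n))))
      have a2 := Y3 (e (n + 1)) (n + 1)
      have a3 : f x / 2 ^ (n + 2) = 2 * (f x / 2 ^ (n + 1 + 2)) := by field_simp; ring
      linarith
  obtain ⟨_, ⟨n, rfl⟩, hn⟩ := pp_oc hf (D := range z) (range_nonempty z) (by
      rintro _ ⟨a, rfl⟩ _ ⟨b, rfl⟩
      rcases le_total a b with k | k
      · exact ⟨b, (inf_eq_right.2 (z1 k)).symm⟩
      · exact ⟨a, (inf_eq_left.2 (z1 k)).symm⟩) ⟨by
      rintro _ ⟨n, rfl⟩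
      exact z3 n, fun w hw => le_sup_left.trans (low (w ⊔ 0) le_sup_right fun n =>
        (sup_le (hw ⟨n, rfl⟩) (z3 n)).trans (z2 n)).le⟩ (half_pos hc)
  have a1 := le_pp f hx le_rfl
  have a2 := pp_add f hx (z3 n) (sub_nonneg.2 (z4 n)) (by simp)
  have a3 := z5 n
  have a4 : 0 < f x / 2 ^ (n + 2) := by positivity
  linarith

end Pool.Agent.H.MP_100021_an
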