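import Mathlib
import Pool.Agent.Lib.helper23.BLDef

namespace Pool.Agent.H.MP_100021_an

open Pool.Agent.Lib.helper23.BL Filter

variable {X : Type} [BanachLattice X]

/-- atoms of a Banach lattice -/
def Atom (a : X) : Prop := 0 < a ∧ ∀ x, 0 ≤ x → x ≤ a → ∃ c : ℝ, 0 ≤ c ∧ x = c • a

/-- order continuous functionals: null along every decreasing net with infimum zero -/
def OrderCont (f : X →L[ℝ] ℝ) : Prop :=
  ∀ (I : Type) [Preorder I] [IsDirectedOrder I] [Nonempty I] (x : I → X), Antitone x →
    IsGLB (Set.range x) 0 → Tendsto (fun i => f (x i)) atTop (nhds 0)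

end Pool.Agent.H.MP_100021_an
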